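import Pool.Agent.Y706.SB.Stm

/-!
# Project SB: the level inequality
-/

set_option autoImplicit false

namespace Pool.Agent.Y808.SB

open Polynomial Pool.Agent.TH951.W.UB Pool.Agent.Y706.SB Finset

universe u w

/-- local data at a place -/
structure Loc (d : ℕ) (a : ℤ) (c : ℕ → ℤ) (b : ℕ → Prop) (V t : ℝ) : Prop where
  V_eq : ((d : ℝ) - 1) * V = -(a : ℝ)
  t0 : 0 ≤ t
  Vt : V ≤ t
  le : ∀ i < d, b i → (a : ℝ) - c i ≤ ((d : ℝ) - i) * (t - V)
  eq : t = 0 ∨ t = V ∨ ∃ i < d, b i ∧ (a : ℝ) - c i = ((d : ℝ) - i) * (t - V)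

theorem exists_loc (d : ℕ) (hd : 2 ≤ d) (a : ℤ) (c : ℕ → ℤ) (b : ℕ → Prop) :
    ∃ V t : ℝ, Loc d a c b V t := by
  classical
  have hd' : (2 : ℝ) ≤ d := by exact_mod_cast hd
  obtain ⟨V, hV⟩ : ∃ V : ℝ, V = -(a : ℝ) / ((d : ℝ) - 1) := ⟨_, rfl⟩
  obtain ⟨F, hF⟩ : ∃ F : Finset ℝ, F = insert 0 (insert V (((range d).filter b).image
    fun i => V + ((a : ℝ) - c i) / ((d : ℝ) - i))) := ⟨_, rfl⟩
  obtain ⟨t, ht, hmax⟩ := exists_max_image F id ⟨0, by rw [hF]; exact mem_insert_self _ _⟩
  simp only [id] at hmax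
  have hpos : ∀ i < d, (0 : ℝ) < (d : ℝ) - i := by
    intro i hi
    have : (i : ℝ) < d := by exact_mod_cast hi
    linarith
  refine ⟨V, t, ?_, ?_, ?_, ?_, ?_⟩
  · have h1 : (d : ℝ) - 1 ≠ 0 := by
      have : (0 : ℝ) < (d : ℝ) - 1 := by linarith
      exact this.ne'
    rw [hV]
    field_simp
  · exact hmax 0 (by rw [hF]; exact mem_insert_self _ _)
  · exact hmax V (by rw [hF]; exact mem_insert_of_mem (mem_insert_self _ _))
  · intro i hi hb
    have h1 := hmax (V + ((a : ℝ) - c i) / ((d : ℝ) - i)) (by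
      rw [hF]
      refine mem_insert_of_mem (mem_insert_of_mem (mem_image.2 ⟨i, ?_, rfl⟩))
      rw [mem_filter, mem_range]
      exact ⟨hi, hb⟩)
    have h2 : ((a : ℝ) - c i) / ((d : ℝ) - i) ≤ t - V := by linarith
    rw [div_le_iff₀ (hpos i hi)] at h2
    linarith
  · rw [hF, mem_insert, mem_insert, mem_image] at ht
    rcases ht with h | h | ⟨i, hi, h⟩
    · exact Or.inl h
    · exact Or.inr (Or.inl h)
    · rw [mem_filter, mem_range] at hi
      refine Or.inr (Or.inr ⟨i, hi.1, hi.2, ?_⟩)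
      have h1 := hpos i hi.1
      rw [← h]
      field_simp
      ring

namespace Loc

variable {d : ℕ} {a : ℤ} {c : ℕ → ℤ} {b : ℕ → Prop} {V t : ℝ}

theorem zero (hL : Loc d a c b V t) (hd : 2 ≤ d) (ha : a = 0) (hc : ∀ i < d, b i → c i = 0) :
    V = 0 ∧ t = 0 := by
  have hd' : (2 : ℝ) ≤ d := by exact_mod_cast hd
  have hV : V = 0 := by
    have h := hL.V_eq
    rw [ha] at h
    have h2 : ((d : ℝ) - 1) * V = 0 := by rw [h]; simp
    rcases mul_eq_zero.1 h2 with h3 | h3
    · linarith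
    · exact h3
  refine ⟨hV, ?_⟩
  rcases hL.eq with h | h | ⟨i, hi, hb, h⟩
  · exact h
  · rw [h, hV]
  · have hi' : (i : ℝ) < d := by exact_mod_cast hi
    rw [ha, hc i hi hb, hV] at h
    have h2 : ((d : ℝ) - i) * t = 0 := by
      have : ((d : ℝ) - i) * (t - 0) = 0 := by rw [← h]; simp
      simpa using this
    rcases mul_eq_zero.1 h2 with h3 | h3
    · linarith
    · exact h3

theorem pos (hL : Loc d a c b V t) (hd : 2 ≤ d) (ht : 0 < t) : 1 ≤ (d : ℝ) * ((d : ℝ) - 1) * t := by
  have hd' : (2 : ℝ) ≤ d := by exact_mod_cast hd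
  rcases hL.eq with h | h | ⟨i, hi, _, h⟩
  · exact absurd h ht.ne'
  · have h1 := hL.V_eq
    have h2 : (0 : ℝ) < -(a : ℝ) := by
      rw [← h1, ← h]
      exact mul_pos (by linarith) ht
    have h3 : (1 : ℤ) ≤ -a := by
      have : (0 : ℤ) < -a := by exact_mod_cast h2
      omega
    have h4 : (1 : ℝ) ≤ -(a : ℝ) := by exact_mod_cast h3
    have h5 : 1 ≤ ((d : ℝ) - 1) * t := by rw [h, h1]; exact h4
    nlinarith
  · have hi' : (i : ℝ) < d := by exact_mod_cast hi
    have hi0 : (0 : ℝ) ≤ i := Nat.cast_nonneg i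
    have h1 := hL.V_eq
    obtain ⟨N, hN⟩ : ∃ N : ℤ, N = (a - c i) * ((d : ℤ) - 1) - a * ((d : ℤ) - i) := ⟨_, rfl⟩
    have h2 : ((d : ℝ) - i) * (((d : ℝ) - 1) * t) = (N : ℝ) := by
      rw [hN]
      push_cast
      have e : ((d : ℝ) - i) * (((d : ℝ) - 1) * t) =
          (((d : ℝ) - i) * (t - V)) * ((d : ℝ) - 1) + (((d : ℝ) - 1) * V) * ((d : ℝ) - i) := by ring
      rw [e, ← h, h1]
      ring
    have h3 : (0 : ℝ) < ((d : ℝ) - 1) * t := mul_pos (by linarith) ht
    have h4 : (0 : ℝ) < (N : ℝ) := by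
      rw [← h2]
      exact mul_pos (by linarith) h3
    have h5 : (1 : ℤ) ≤ N := by
      have : (0 : ℤ) < N := by exact_mod_cast h4
      omega
    have h6 : (1 : ℝ) ≤ (N : ℝ) := by exact_mod_cast h5
    nlinarith

theorem neg (hL : Loc d a c b V t) (hd : 2 ≤ d) (hV : V < 0) : 1 ≤ ((d : ℝ) - 1) * (-V) := by
  have hd' : (2 : ℝ) ≤ d := by exact_mod_cast hd
  have h1 := hL.V_eq
  have h2 : ((d : ℝ) - 1) * (-V) = (a : ℝ) := by linarith
  have h3 : (0 : ℝ) < (a : ℝ) := by
    rw [← h2]
    exact mul_pos (by linarith) (by linarith)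
  have h4 : (1 : ℤ) ≤ a := by
    have : (0 : ℤ) < a := by exact_mod_cast h3
    omega
  rw [h2]
  exact_mod_cast h4

/-- bound for the orders of the coefficients -/
theorem bd (hL : Loc d a c b V t) (hd : 2 ≤ d) (i : ℕ) (hi : i < d) (hb : b i) :
    -(c i : ℝ) ≤ d * (t + max 0 (-V)) := by
  have hd' : (2 : ℝ) ≤ d := by exact_mod_cast hd
  have hi' : (i : ℝ) < d := by exact_mod_cast hi
  have hi0 : (0 : ℝ) ≤ i := Nat.cast_nonneg i
  have h1 := hL.le i hi hb
  have h2 := hL.V_eq
  have h3 := hL.t0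
  have h4 := hL.Vt
  have h5 : -(c i : ℝ) ≤ ((d : ℝ) - i) * t + ((i : ℝ) - 1) * V := by nlinarith
  have h6 := le_max_left 0 (-V)
  have h7 := le_max_right 0 (-V)
  rcases Nat.eq_zero_or_pos i with h0 | h0
  · subst h0
    push_cast at h5
    nlinarith
  · have h8 : (1 : ℝ) ≤ i := by exact_mod_cast h0
    rcases le_total 0 V with hV | hV
    · nlinarith
    · nlinarith [mul_nonneg (sub_nonneg.2 h8) (neg_nonneg.2 hV)]

theorem lead (hL : Loc d a c b V t) (hd : 2 ≤ d) : -(a : ℝ) ≤ d * (t + max 0 (-V)) := by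
  have hd' : (2 : ℝ) ≤ d := by exact_mod_cast hd
  have h2 := hL.V_eq
  have h3 := hL.t0
  have h4 := hL.Vt
  have h6 := le_max_left 0 (-V)
  rw [← h2]
  rcases le_total 0 V with hV | hV
  · nlinarith
  · nlinarith [mul_nonneg (by linarith : (0 : ℝ) ≤ (d : ℝ) - 1) (neg_nonneg.2 hV)]

theorem scale (hL : Loc d a c b V t) (q : ℕ) (hq : 1 ≤ q) :
    Loc d (q * a) (fun i => q * c i) b (q * V) (q * t) := by
  have hq' : (1 : ℝ) ≤ q := by exact_mod_cast hq
  refine ⟨?_, ?_, ?_, ?_, ?_⟩
  · push_cast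
    linear_combination (q : ℝ) * hL.V_eq
  · have := hL.t0
    positivity
  · have := hL.Vt
    gcongr
  · intro i hi hb
    have := hL.le i hi hb
    push_cast
    nlinarith
  · rcases hL.eq with h | h | ⟨i, hi, hb, h⟩
    · left
      rw [h, mul_zero]
    · right; left
      rw [h]
    · right; right
      refine ⟨i, hi, hb, ?_⟩
      push_cast
      linear_combination (q : ℝ) * h

end Loc

section

variable {p : ℕ} [Fact p.Prime] {k : Type u} {K : Type w} [Field k] [Field K] [Algebra k K]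
  [CharP K p]

omit [Fact p.Prime] in
theorem vl (Q : PlaceData.{w} k K) (v : Q.Pl) : Vl p (Q.ord v) where
  mul := Q.ord_mul v
  add := Q.ord_add v
  nat := by
    intro n h0 hn
    have h1 : (n : K) ≠ 0 := by
      rw [Ne, CharP.cast_eq_zero_iff K p]
      exact fun h => absurd (Nat.le_of_dvd h0 h) (by omega)
    refine ⟨h1, ?_⟩
    have h2 : (n : K) = algebraMap k K (n : k) := by simp
    rw [h2]
    refine Q.ord_alg v _ ?_
    intro h3
    apply h1
    rw [h2, h3, map_zero]

theorem tw_eq {j : ℕ} {h g : K[X]} (ht : Tw p j h g) : g = h.map (iterateFrobenius K p j) := by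
  ext m
  rw [coeff_map, iterateFrobenius_def]
  exact ht m

theorem tw_sub {j : ℕ} {h g : K[X]} (ht : Tw p j h g) (i : ℕ) :
    (g - X).coeff i = ((h - X).coeff i) ^ p ^ j := by
  rw [coeff_sub, coeff_sub, sub_pow_char_pow, ht i, coeff_X]
  congr 1
  split_ifs
  · simp
  · rw [zero_pow (pow_ne_zero _ (Fact.out : p.Prime).ne_zero)]

theorem tw_iter {j : ℕ} {h g : K[X]} (ht : Tw p j h g) (n : ℕ) (z : K) :
    (fun z => g.eval z)^[n] (z ^ p ^ j) = ((fun z => h.eval z)^[n] z) ^ p ^ j := by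
  induction n with
  | zero => rfl
  | succ n ih =>
    rw [Function.iterate_succ_apply', Function.iterate_succ_apply', ih, tw_eq ht]
    have h1 := eval₂_at_apply (iterateFrobenius K p j) ((fun z => h.eval z)^[n] z) (p := h)
    rw [iterateFrobenius_def, iterateFrobenius_def] at h1
    simp only [eval_map]
    exact h1

omit [Fact p.Prime] in
theorem D_tw (D : Derivation k K K) {j : ℕ} (hj : 1 ≤ j) (c : K) : D (c ^ p ^ j) = 0 := by
  rw [Derivation.leibniz_pow]
  have h1 : ((p ^ j : ℕ) : K) = 0 := by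
    rw [CharP.cast_eq_zero_iff K p]
    exact dvd_pow_self p (by omega)
  rw [← Nat.cast_smul_eq_nsmul K, h1, zero_smul]

end

/-- orbits in a finite stable set are finite -/
theorem orb {K : Type w} (F : K → K) (Z : Finset K) (hZ : ∀ z ∈ Z, F z ∈ Z) (z : K) (hz : z ∈ Z) :
    ∃ m n : ℕ, m < n ∧ F^[m] z = F^[n] z := by
  have h1 : ∀ n, F^[n] z ∈ Z := by
    intro n
    induction n with
    | zero => exact hz
    | succ n ih =>
      rw [Function.iterate_succ_apply']
      exact hZ _ ih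
  obtain ⟨m, n, hmn, h2⟩ := Finite.exists_ne_map_eq_of_infinite (fun n : ℕ => (⟨F^[n] z, h1 n⟩ : Z))
  have h3 : F^[m] z = F^[n] z := congrArg Subtype.val h2
  rcases lt_or_gt_of_ne hmn with h | h
  · exact ⟨m, n, h, h3⟩
  · exact ⟨n, m, h, h3.symm⟩

theorem t_LEV : S_ESC.{w} → S_LOC.{w} → S_LEV.{u, w} := by
  intro hE hLc p _ k K _ _ _ _ Q h d Z hdeg hd hdp hZ0 hZ1 hZ hcoef
  classical
  have hd' : (2 : ℝ) ≤ d := by exact_mod_cast hd
  have hA : h.leadingCoeff ≠ 0 := by
    rw [Ne, leadingCoeff_eq_zero]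
    rintro rfl
    rw [natDegree_zero] at hdeg
    omega
  obtain ⟨A, hAdef⟩ : ∃ A, A = h.leadingCoeff := ⟨_, rfl⟩
  rw [← hAdef] at hA
  have hAd : A = h.coeff d := by rw [hAdef, leadingCoeff, hdeg]
  choose V t hL using fun v : Q.Pl => exists_loc d hd (Q.ord v A)
    (fun i => Q.ord v ((h - X).coeff i)) (fun i => (h - X).coeff i ≠ 0)
  -- the finite set of places
  obtain ⟨S, hSA, hSb, hSl⟩ : ∃ S : Finset Q.Pl, (∀ v, v ∉ S → Q.ord v A = 0) ∧
      (∀ v, v ∉ S → ∀ i < d, (h - X).coeff i ≠ 0 → Q.ord v ((h - X).coeff i) = 0) ∧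
      Q.lossS ⊆ S := by
    refine ⟨(Q.fin A hA).toFinset ∪ ((range d).biUnion fun i =>
      if hi : (h - X).coeff i ≠ 0 then (Q.fin _ hi).toFinset else ∅) ∪ Q.lossS, ?_, ?_, ?_⟩
    · intro v hv
      by_contra hne
      apply hv
      rw [mem_union, mem_union]
      left; left
      simpa using hne
    · intro v hv i hi hb
      by_contra hne
      apply hv
      rw [mem_union, mem_union, mem_biUnion]
      left; right
      refine ⟨i, mem_range.2 hi, ?_⟩
      rw [dif_pos hb]
      simpa using hne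
    · exact subset_union_right
  have hoff : ∀ v, v ∉ S → V v = 0 ∧ t v = 0 := fun v hv =>
    (hL v).zero hd (hSA v hv) (fun i hi hb => hSb v hv i hi hb)
  have hwt : ∀ v, (0 : ℝ) ≤ Q.wt v := fun v => by exact_mod_cast Q.wt_nonneg v
  have hwt1 : ∀ v, (1 : ℝ) ≤ Q.wt v := fun v => by exact_mod_cast Q.wt_one v
  obtain ⟨H, hH⟩ : ∃ H : ℝ, H = ∑ v ∈ S, (Q.wt v : ℝ) * t v := ⟨_, rfl⟩
  -- the sum of V
  have hVsum : ∑ v ∈ S, (Q.wt v : ℝ) * V v = 0 := by
    have h1 := Q.prod_formula A hA S (fun v hv => (hSA v hv).ge)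
    have h2 := Q.prod_formula A⁻¹ (inv_ne_zero hA) S (fun v hv => by
      rw [PlaceData.ord_inv hA, hSA v hv]; simp)
    have h3 : ∑ v ∈ S, Q.wt v * Q.ord v A⁻¹ = -∑ v ∈ S, Q.wt v * Q.ord v A := by
      rw [← sum_neg_distrib]
      refine sum_congr rfl fun v _ => ?_
      rw [PlaceData.ord_inv hA]
      ring
    rw [h3] at h2
    have h4 : ∑ v ∈ S, Q.wt v * Q.ord v A = 0 := by linarith
    have h5 : ((d : ℝ) - 1) * ∑ v ∈ S, (Q.wt v : ℝ) * V v =
        -((∑ v ∈ S, Q.wt v * Q.ord v A : ℤ) : ℝ) := by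
      push_cast
      rw [mul_sum, ← sum_neg_distrib]
      refine sum_congr rfl fun v _ => ?_
      have := (hL v).V_eq
      linear_combination (Q.wt v : ℝ) * this
    rw [h4, Int.cast_zero, neg_zero] at h5
    rcases mul_eq_zero.1 h5 with h6 | h6
    · linarith
    · exact h6
  have hHpos : 0 < H := by
    by_contra hneg
    rw [not_lt] at hneg
    have h1 : ∀ v ∈ S, 0 ≤ (Q.wt v : ℝ) * t v := fun v _ => mul_nonneg (hwt v) (hL v).t0
    have h2 : ∑ v ∈ S, (Q.wt v : ℝ) * t v = 0 := le_antisymm (hH ▸ hneg) (sum_nonneg h1)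
    have h3 := (sum_eq_zero_iff_of_nonneg h1).1 h2
    have ht0 : ∀ v, t v = 0 := by
      intro v
      by_cases hv : v ∈ S
      · rcases mul_eq_zero.1 (h3 v hv) with h4 | h4
        · have := hwt1 v
          linarith
        · exact h4
      · exact (hoff v hv).2
    have hVle : ∀ v, V v ≤ 0 := fun v => by
      have := (hL v).Vt
      rw [ht0 v] at this
      exact this
    have h4 : ∀ v ∈ S, 0 ≤ (Q.wt v : ℝ) * (-V v) := fun v _ =>
      mul_nonneg (hwt v) (by linarith [hVle v])
    have h5 : ∑ v ∈ S, (Q.wt v : ℝ) * (-V v) = 0 := by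
      have : ∑ v ∈ S, (Q.wt v : ℝ) * (-V v) = -∑ v ∈ S, (Q.wt v : ℝ) * V v := by
        rw [← sum_neg_distrib]
        exact sum_congr rfl fun v _ => by ring
      rw [this, hVsum, neg_zero]
    have h6 := (sum_eq_zero_iff_of_nonneg h4).1 h5
    have hV0 : ∀ v, V v = 0 := by
      intro v
      by_cases hv : v ∈ S
      · rcases mul_eq_zero.1 (h6 v hv) with h7 | h7
        · have := hwt1 v
          linarith
        · linarith
      · exact (hoff v hv).1
    have hA0 : ∀ v, Q.ord v A = 0 := by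
      intro v
      have := (hL v).V_eq
      rw [hV0 v, mul_zero] at this
      have h8 : (Q.ord v A : ℝ) = 0 := by linarith
      exact_mod_cast h8
    have hb0 : ∀ i < d, (h - X).coeff i ≠ 0 → ∀ v, 0 ≤ Q.ord v ((h - X).coeff i) := by
      intro i hi hb v
      have := (hL v).le i hi hb
      rw [hV0 v, ht0 v, hA0 v] at this
      have h8 : (0 : ℝ) ≤ (Q.ord v ((h - X).coeff i) : ℝ) := by
        simp only [Int.cast_zero] at this
        linarith
      exact_mod_cast h8
    obtain ⟨m, hm⟩ := hcoef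
    rcases lt_trichotomy m d with hlt | heq | hgt
    · obtain ⟨c, hc⟩ : ∃ c : k, algebraMap k K c = (h - X).coeff m := by
        by_cases hb : (h - X).coeff m = 0
        · exact ⟨0, by rw [hb, map_zero]⟩
        · exact Q.const _ hb (hb0 m hlt hb)
      have h9 : h.coeff m = (h - X).coeff m + (X : K[X]).coeff m := by
        rw [coeff_sub]
        ring
      rw [coeff_X] at h9
      split_ifs at h9
      · exact hm (c + 1) (by rw [map_add, map_one, hc, h9])
      · exact hm c (by rw [hc, h9, add_zero])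
    · obtain ⟨c, hc⟩ := Q.const A hA (fun v => (hA0 v).ge)
      exact hm c (by rw [hc, hAd, heq])
    · exact hm 0 (by rw [map_zero, coeff_eq_zero_of_natDegree_lt (by omega)])
  obtain ⟨ρ, hρ⟩ : ∃ ρ : Q.Pl → ℝ, ρ = fun v => (d : ℝ) * (t v + max 0 (-V v)) := ⟨_, rfl⟩
  have hρv : ∀ v, ρ v = (d : ℝ) * (t v + max 0 (-V v)) := fun v => by rw [hρ]
  have hρ0 : ∀ v, 0 ≤ ρ v := by
    intro v
    rw [hρv]
    have h1 := (hL v).t0
    have h2 := le_max_left 0 (-V v)
    positivity
  have hρtV : ∀ v, t v - V v ≤ ρ v := by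
    intro v
    rw [hρv]
    have h1 := (hL v).t0
    have h2 := le_max_left 0 (-V v)
    have h3 := le_max_right 0 (-V v)
    nlinarith
  have hneg : ∑ v ∈ S, (Q.wt v : ℝ) * max 0 (-V v) ≤ H := by
    have h1 : ∑ v ∈ S, (Q.wt v : ℝ) * max 0 (-V v) =
        ∑ v ∈ S, (Q.wt v : ℝ) * max 0 (V v) - ∑ v ∈ S, (Q.wt v : ℝ) * V v := by
      rw [← sum_sub_distrib]
      refine sum_congr rfl fun v _ => ?_
      have h2 : max 0 (-V v) = max 0 (V v) - V v := by
        rcases le_total 0 (V v) with h | h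
        · rw [max_eq_right h, max_eq_left (by linarith), sub_self]
        · rw [max_eq_left h, max_eq_right (by linarith)]
          ring
      rw [h2]
      ring
    rw [h1, hVsum, sub_zero, hH]
    refine sum_le_sum fun v _ => ?_
    exact mul_le_mul_of_nonneg_left (max_le (hL v).t0 (hL v).Vt) (hwt v)
  have hVl : ∀ v, Vl p (Q.ord v) := fun v => vl Q v
  have hescZ : ∀ z ∈ Z, z ≠ 0 → ∀ v, V v - t v ≤ Q.ord v z := by
    intro z hz hz0 v
    obtain ⟨m, n, hmn, hor⟩ := orb (fun z => h.eval z) Z hZ z hz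
    exact hE p K (Q.ord v) (hVl v) h d hdeg hd (V v) (t v) (hL v).t0 (by
      rw [← hAdef]; exact (hL v).V_eq) (by
      rw [← hAdef]; exact (hL v).le) z m n hmn hor hz0
  refine ⟨S, ρ, H, hHpos, hρ0, ?_, ?_, ?_, ?_, ?_⟩
  · intro v hv
    rw [hρv, (hoff v hv).1, (hoff v hv).2]
    simp
  · -- coefficients
    intro v m hm
    rw [hρv]
    rcases lt_trichotomy m d with hlt | heq | hgt
    · have h9 : h.coeff m = (h - X).coeff m + (X : K[X]).coeff m := by
        rw [coeff_sub]
        ring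
      have hbd := (hL v).bd hd m hlt
      rw [coeff_X] at h9
      have hr0 := hρ0 v
      rw [hρv] at hr0
      split_ifs at h9 with h1m
      · by_cases hb : (h - X).coeff m = 0
        · rw [hb, zero_add] at h9
          rw [h9, PlaceData.ord_one]
          simpa using hr0
        · have h10 := Q.ord_add v _ _ (min (Q.ord v ((h - X).coeff m)) 0) hb one_ne_zero
            (by rw [← h9]; exact hm) (min_le_left _ _) (by
              rw [PlaceData.ord_one]; exact min_le_right _ _)
          rw [← h9] at h10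
          have h11 : ((min (Q.ord v ((h - X).coeff m)) 0 : ℤ) : ℝ) ≤ Q.ord v (h.coeff m) := by
            exact_mod_cast h10
          have h12 := hbd hb
          rcases le_total (Q.ord v ((h - X).coeff m)) 0 with h13 | h13
          · rw [min_eq_left h13] at h11
            linarith
          · rw [min_eq_right h13] at h11
            simp only [Int.cast_zero] at h11
            linarith
      · rw [add_zero] at h9
        rw [h9] at hm ⊢
        exact hbd hm
    · rw [heq, ← hAd]
      exact (hL v).lead hd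
    · exact absurd (coeff_eq_zero_of_natDegree_lt (by omega)) hm
  · intro v z hz hz0
    have h1 := hescZ z hz hz0 v
    have h2 := hρtV v
    linarith
  · have h1 : ∑ v ∈ S, (Q.wt v : ℝ) * ρ v = d * (H + ∑ v ∈ S, (Q.wt v : ℝ) * max 0 (-V v)) := by
      rw [hH, ← sum_add_distrib, mul_sum]
      refine sum_congr rfl fun v _ => ?_
      rw [hρv]
      ring
    rw [h1]
    nlinarith
  · -- the twists
    intro j g x m hj htw hm hx
    have hp0 : (p : ℕ) ≠ 0 := (Fact.out : p.Prime).ne_zero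
    have hq1 : 1 ≤ p ^ j := Nat.one_le_iff_ne_zero.2 (pow_ne_zero _ hp0)
    obtain ⟨q, hq⟩ : ∃ q, q = p ^ j := ⟨_, rfl⟩
    have hqR : (p : ℝ) ^ j = (q : ℝ) := by rw [hq]; push_cast; ring
    have hq1' : (1 : ℝ) ≤ q := by rw [hq]; exact_mod_cast hq1
    have hinj : Function.Injective (iterateFrobenius K p j) := (iterateFrobenius K p j).injective
    have hgdeg : g.natDegree = d := by
      rw [tw_eq htw, natDegree_map_eq_of_injective hinj, hdeg]
    have hglead : g.leadingCoeff = A ^ q := by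
      rw [leadingCoeff, hgdeg, htw d, ← hAd, hq]
    have hgsub : ∀ i, (g - X).coeff i = ((h - X).coeff i) ^ q := fun i => by
      rw [hq]; exact tw_sub htw i
    have hLq : ∀ v, Loc d (q * Q.ord v A) (fun i => q * Q.ord v ((h - X).coeff i))
        (fun i => (h - X).coeff i ≠ 0) (q * V v) (q * t v) := fun v => (hL v).scale q (by rw [hq]; exact hq1)
    have hordA : ∀ v, (Q.ord v g.leadingCoeff : ℝ) = ((q * Q.ord v A : ℤ) : ℝ) := by
      intro v
      rw [hglead, PlaceData.ord_pow hA]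
    have hordb : ∀ v i, (h - X).coeff i ≠ 0 →
        (Q.ord v ((g - X).coeff i) : ℝ) = ((q * Q.ord v ((h - X).coeff i) : ℤ) : ℝ) := by
      intro v i hb
      rw [hgsub, PlaceData.ord_pow hb]
    have hbiff : ∀ i, (g - X).coeff i ≠ 0 → (h - X).coeff i ≠ 0 := by
      intro i h1 h2
      apply h1
      rw [hgsub, h2, zero_pow]
      rw [hq]
      exact pow_ne_zero _ hp0
    have hVq : ∀ v, ((d : ℝ) - 1) * (q * V v) = -(Q.ord v g.leadingCoeff : ℝ) := by
      intro v
      rw [hordA]
      exact (hLq v).V_eq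
    have hleq : ∀ v, ∀ i < d, (g - X).coeff i ≠ 0 →
        (Q.ord v g.leadingCoeff : ℝ) - Q.ord v ((g - X).coeff i) ≤
          ((d : ℝ) - i) * (q * t v - q * V v) := by
      intro v i hi hb
      rw [hordA, hordb v i (hbiff i hb)]
      exact (hLq v).le i hi (hbiff i hb)
    have hescx : x ≠ 0 → ∀ v, q * V v - q * t v ≤ Q.ord v x := by
      intro hx0 v
      exact hE p K (Q.ord v) (hVl v) g d hgdeg hd (q * V v) (q * t v) (hLq v).t0 (hVq v) (hleq v)
        x 0 m (by omega) hx.symm hx0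
    refine ⟨?_, ?_⟩
    · intro v hx0
      have h1 := hescx hx0 v
      have h2 := hρtV v
      rw [hqR]
      nlinarith
    · intro hDx
      have hx0 : x ≠ 0 := by
        rintro rfl
        exact hDx (map_zero _)
      have horb : ∀ z ∈ Z, z ^ q = z → ∃ m n : ℕ, m < n ∧
          (fun z => g.eval z)^[m] z = (fun z => g.eval z)^[n] z := by
        intro z hz hzq
        obtain ⟨m, n, hmn, hor⟩ := orb (fun z => h.eval z) Z hZ z hz
        refine ⟨m, n, hmn, ?_⟩
        have h1 := tw_iter htw m z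
        have h2 := tw_iter htw n z
        rw [← hq, hzq] at h1 h2
        rw [h1, h2, hor]
      have hD1 : ∀ v, ∀ y, y ≠ 0 → Q.D y ≠ 0 → (Q.ord v y : ℝ) - 1 - Q.loss v ≤ Q.ord v (Q.D y) := by
        intro v y hy hDy
        have h1 := Q.D_ord v y 1 (Q.ord v y) hy (by simpa using hDy) le_rfl
        have h2 : Q.ord v y - 1 - Q.loss v ≤ Q.ord v (Q.D y) := by simpa using h1
        exact_mod_cast h2
      -- the local inequality
      have hloc : ∀ v, q * (V v + t v / ((d : ℝ) - 1)) -
          (d * ((d : ℝ) - 1) * t v + ((d : ℝ) - 1) * max 0 (-V v)) - Q.loss v ≤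
            (Q.ord v (Q.D x) : ℝ) := by
        intro v
        have ht0 := (hL v).t0
        have hm0 := le_max_left 0 (-V v)
        have hm1 := le_max_right 0 (-V v)
        have hE0 : 0 ≤ ((d : ℝ) - 1) * max 0 (-V v) := mul_nonneg (by linarith) hm0
        rcases ht0.eq_or_lt with htz | htp
        · -- t = 0
          rw [← htz]
          have hVle : V v ≤ 0 := by
            have := (hL v).Vt
            rw [← htz] at this
            exact this
          rcases hVle.eq_or_lt with hVz | hVn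
          · rw [hVz]
            have h1 := hescx hx0 v
            rw [← htz, hVz] at h1
            have h2 : (0 : ℤ) ≤ Q.ord v x := by
              have : (0 : ℝ) ≤ (Q.ord v x : ℝ) := by linarith
              exact_mod_cast this
            have h3 := Q.D_ord' v x 1 hx0 (by simpa using hDx) h2
            have h4 : -Q.loss v ≤ Q.ord v (Q.D x) := by simpa using h3
            have h5 : -(Q.loss v : ℝ) ≤ Q.ord v (Q.D x) := by exact_mod_cast h4
            simpa using h5
          · have h1 := hescx hx0 v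
            rw [← htz] at h1
            have h2 := hD1 v x hx0 hDx
            have h3 := (hL v).neg hd hVn
            have h4 : ((d : ℝ) - 1) * (-V v) ≤ ((d : ℝ) - 1) * max 0 (-V v) :=
              mul_le_mul_of_nonneg_left hm1 (by linarith)
            have h5 : (q : ℝ) * (V v + 0 / ((d : ℝ) - 1)) = q * V v := by ring
            rw [h5]
            linarith
        · -- t > 0
          have h1 := hLc p K (Q.ord v) (hVl v) (Q.D.restrictScalars ℤ) (Q.loss v) (by
            intro y hy hDy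
            exact hD1 v y hy hDy) g d hgdeg hd hdp (by
            intro i
            show Q.D (g.coeff i) = 0
            rw [htw i]
            exact D_tw Q.D hj _) (q * V v) (q * t v) (by positivity) (hLq v).Vt (hVq v) (hleq v) (by
            rcases (hLq v).eq with h2 | h2 | ⟨i, hi, hb, h2⟩
            · exfalso
              have : 0 < (q : ℝ) * t v := by positivity
              linarith
            · exact Or.inl h2
            · refine Or.inr ⟨i, hi, ?_, ?_⟩
              · rw [hgsub]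
                exact pow_ne_zero _ hb
              · rw [hordA, hordb v i hb]
                exact h2)
            (horb 0 hZ0 (by rw [zero_pow]; rw [hq]; exact pow_ne_zero _ hp0))
            (horb 1 hZ1 (one_pow _)) x m hm hx hDx
          have h2 := (hL v).pos hd htp
          have h3 : (q : ℝ) * (V v + t v / ((d : ℝ) - 1)) = q * V v + q * t v / ((d : ℝ) - 1) := by ring
          rw [h3]
          have h4 : (Q.D.restrictScalars ℤ) x = Q.D x := rfl
          rw [h4] at h1
          linarith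
      -- the enlarged set
      obtain ⟨S', hS'⟩ : ∃ S' : Finset Q.Pl, S' = S ∪ (Q.fin _ hDx).toFinset := ⟨_, rfl⟩
      have hSS' : S ⊆ S' := by rw [hS']; exact subset_union_left
      have hprod : (∑ v ∈ S', (Q.wt v : ℝ) * Q.ord v (Q.D x)) ≤ 0 := by
        have h1 := Q.prod_formula (Q.D x) hDx S' (by
          intro v hv
          have h2 : Q.ord v (Q.D x) = 0 := by
            by_contra hne
            apply hv
            rw [hS', mem_union]
            right
            simpa using hne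
          rw [h2])
        exact_mod_cast h1
      have hsum : ∑ v ∈ S', (Q.wt v : ℝ) * (q * (V v + t v / ((d : ℝ) - 1)) -
          (d * ((d : ℝ) - 1) * t v + ((d : ℝ) - 1) * max 0 (-V v)) - Q.loss v) ≤ 0 :=
        le_trans (sum_le_sum fun v _ => mul_le_mul_of_nonneg_left (hloc v) (hwt v)) hprod
      have hext : ∀ f : Q.Pl → ℝ, (∀ v, v ∉ S → f v = 0) → ∑ v ∈ S', f v = ∑ v ∈ S, f v :=
        fun f hf => (sum_subset hSS' fun v _ hv => hf v hv).symm
      have e1 : ∑ v ∈ S', (Q.wt v : ℝ) * V v = 0 := by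
        rw [hext _ (fun v hv => by rw [(hoff v hv).1, mul_zero]), hVsum]
      have e2 : ∑ v ∈ S', (Q.wt v : ℝ) * t v = H := by
        rw [hext _ (fun v hv => by rw [(hoff v hv).2, mul_zero]), hH]
      have e3 : ∑ v ∈ S', (Q.wt v : ℝ) * max 0 (-V v) ≤ H := by
        rw [hext _ (fun v hv => by rw [(hoff v hv).1]; simp)]
        exact hneg
      have e4 : ∑ v ∈ S', (Q.wt v : ℝ) * Q.loss v ≤ Q.lossT := by
        have h1 : ∑ v ∈ S', (Q.wt v : ℝ) * Q.loss v = ∑ v ∈ Q.lossS, (Q.wt v : ℝ) * Q.loss v := by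
          symm
          refine sum_subset (hSl.trans hSS') fun v _ hv => ?_
          rw [Q.loss_supp v hv]
          simp
        rw [h1]
        exact_mod_cast Q.loss_sum
      have e5 : ∑ v ∈ S', (Q.wt v : ℝ) * (q * (V v + t v / ((d : ℝ) - 1)) -
          (d * ((d : ℝ) - 1) * t v + ((d : ℝ) - 1) * max 0 (-V v)) - Q.loss v) =
          q * ∑ v ∈ S', (Q.wt v : ℝ) * V v + (q / ((d : ℝ) - 1) - d * ((d : ℝ) - 1)) *
            ∑ v ∈ S', (Q.wt v : ℝ) * t v - ((d : ℝ) - 1) * ∑ v ∈ S', (Q.wt v : ℝ) * max 0 (-V v) -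
            ∑ v ∈ S', (Q.wt v : ℝ) * Q.loss v := by
        rw [mul_sum, mul_sum, mul_sum, ← sum_add_distrib, ← sum_sub_distrib, ← sum_sub_distrib]
        refine sum_congr rfl fun v _ => ?_
        ring
      rw [e5, e1, e2] at hsum
      have hd1 : (0 : ℝ) < (d : ℝ) - 1 := by linarith
      have h6 : (q : ℝ) / ((d : ℝ) - 1) * H ≤ Q.lossT + ((d : ℝ) ^ 2 - 1) * H := by
        nlinarith
      rw [hqR]
      have h7 : (q : ℝ) * H = ((d : ℝ) - 1) * ((q : ℝ) / ((d : ℝ) - 1) * H) := by
        field_simp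
      rw [h7]
      refine mul_le_mul_of_nonneg_left ?_ hd1.le
      linarith

end Pool.Agent.Y808.SB
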